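import Pool.Agent.H923R2.FP.Stubs

/-! ABS1: the system of a reduced free product (MP_118406_an). -/

set_option autoImplicit false

open scoped ComplexConjugate ComplexOrder

noncomputable section

namespace Pool.Agent.H923R2.FP.T_ABS1

open Pool.Agent.H923R2.FP MeasureTheory

/-- restriction of a free family indexed by `Option J` to `J` -/
lemma restrict {J A : Type} [CStarAlgebra A] (τ : A →ₗ[ℂ] ℂ) (X : StarSubalgebra ℂ A)
    (Y : J → StarSubalgebra ℂ A)
    (h : FreeFam τ fun o : Option J => o.elim X Y) : FreeFam τ Y := by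
  intro w hw hz hc
  have := h (w.map fun z => (some z.1, z.2)) (by simpa using hw) ?_ ?_
  · rw [List.map_map] at this
    exact this
  · intro z hz'
    rw [List.mem_map] at hz'
    obtain ⟨y, hy, rfl⟩ := hz'
    exact hz y hy
  · rw [List.isChain_map]
    refine hc.imp ?_
    intro a b hab hab'
    exact hab (by simpa using hab')

lemma Uc_map {B C : Type} [Ring B] [Ring C] (f : B →+* C) (x : B) :
    ∀ m : ℕ, Uc (f x) m = f (Uc x m)
  | 0 => by simp [Uc]
  | 1 => by simp [Uc]
  | m + 2 => by
    rw [Uc, Uc, Uc_map f x (m + 1), Uc_map f x m, map_sub, map_mul]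

theorem t_ABS1 (hG : S_GRP) (hS : S_SDF) : S_ABS1 := by
  intro J D _ t i0 A _ τ e f h φ hφ
  have hsa : star (f (cx φ)) = f (cx φ) := by
    rw [← map_star]
    congr 1
    ext x
    simp [cx]
  constructor
  · exact hsa
  · intro w hw halt hz
    have h1 := restrict τ f.range (fun j => (e j).range) h.free
    have h2 := hG A τ h.fts J (fun j => (e j).range) h1 i0
    have h3 := h2 (w.map fun z => (z.isQ, vl (e i0) (RR e i0).subtype (f (cx φ)) z))
      (by simpa using hw) ?_ ?_
    · rw [List.map_map] at h3
      exact h3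
    · intro z hz'
      rw [List.mem_map] at hz'
      obtain ⟨y, hy, rfl⟩ := hz'
      refine ⟨?_, hz y hy⟩
      have hy1 := halt.1 y hy
      cases y with
      | q x =>
        simp only [Lt.isQ, vl_q]
        exact ⟨x, rfl⟩
      | r x =>
        simp only [Lt.isQ, vl_r]
        exact x.2
      | s => simp [Lt.isS] at hy1
    · rw [List.isChain_map]
      exact halt.2
  · have h2 := hG A τ h.fts (Option J) (fun o => o.elim f.range fun j => (e j).range) h.free none
    refine hS A (D i0) (RR e i0) τ (e i0) (RR e i0).subtype (f (cx φ)) f.range _ h.fts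
      ⟨_, rfl⟩ hsa ?_ ?_ ?_ h2
    · intro x
      have hle : (e i0).range ≤ ⨆ k : {k : Option J // k ≠ none},
          (k.1.elim f.range fun j => (e j).range) :=
        le_iSup (fun k : {k : Option J // k ≠ none} => (k.1.elim f.range fun j => (e j).range))
          ⟨some i0, by simp⟩
      exact hle ⟨x, rfl⟩
    · intro x
      have hle : RR e i0 ≤ ⨆ k : {k : Option J // k ≠ none},
          (k.1.elim f.range fun j => (e j).range) := by
        unfold RR
        refine iSup_le fun k => ?_
        exact le_iSup (fun k : {k : Option J // k ≠ none} =>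
          (k.1.elim f.range fun j => (e j).range)) ⟨some k.1, by simp⟩
      exact hle x.2
    · intro m hm
      have e1 : Uc (f (cx φ)) m = f (Uc (cx φ) m) := Uc_map (f : C(unitInterval, ℂ) →+* A) (cx φ) m
      have e2 : ∀ x, (Uc (cx φ) m) x = ((Uc (φ x) m : ℝ) : ℂ) := by
        intro x
        have e3 := Uc_map (ContinuousMap.evalAlgHom ℂ ℂ x : C(unitInterval, ℂ) →+* ℂ) (cx φ) m
        have e4 := Uc_map Complex.ofRealHom (φ x) m
        have e5 : (ContinuousMap.evalAlgHom ℂ ℂ x : C(unitInterval, ℂ) →+* ℂ) (cx φ) =
          Complex.ofRealHom (φ x) := rfl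
        simp only [e5] at e3
        rw [e4] at e3
        exact e3.symm
      rw [e1, h.tr1]
      unfold leb
      simp only [e2]
      rw [integral_complex_ofReal, hφ m hm]
      rfl

end Pool.Agent.H923R2.FP.T_ABS1
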