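import Mathlib
import Pool.Agent.H213R2.K9Data
import Pool.Agent.Helper770.VanKampen

set_option autoImplicit false

namespace Pool.Agent.H213R2.K9Comb

open Pool.Agent.H213R2.K9Data Pool.Agent.Helper770.VanKampen

/-! ### Linear certificates modulo two -/

/-- first vertex of a coded quadruple -/
def qa (n : ℕ) : Fin 9 := Fin.ofNat 9 (n / 729)
/-- second vertex of a coded quadruple -/
def qb (n : ℕ) : Fin 9 := Fin.ofNat 9 (n / 81)
/-- third vertex of a coded quadruple -/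
def qc (n : ℕ) : Fin 9 := Fin.ofNat 9 (n / 9)
/-- fourth vertex of a coded quadruple -/
def qd (n : ℕ) : Fin 9 := Fin.ofNat 9 n

/-- label number -/
def lab (a b c : Fin 9) : ℕ := (a.val * 9 + b.val) * 9 + c.val

lemma lab_lt (a b c : Fin 9) : lab a b c < 729 := by
  unfold lab; omega

/-- the four labels of a quadruple -/
def labs (n : ℕ) : ℕ :=
  (1 <<< lab (qa n) (qb n) (qc n)) ^^^ ((1 <<< lab (qa n) (qb n) (qd n)) ^^^
    ((1 <<< lab (qc n) (qd n) (qa n)) ^^^ (1 <<< lab (qc n) (qd n) (qb n))))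

/-- interleaving as a Boolean -/
def bet (n : ℕ) : Bool :=
  (decide (qa n < qc n ∧ qc n < qb n)) ^^ (decide (qa n < qd n ∧ qd n < qb n))

/-- shape of a quadruple -/
def shape (n : ℕ) : Bool :=
  decide (qa n < qb n ∧ qc n < qd n ∧ qa n ≠ qc n ∧ qa n ≠ qd n ∧ qb n ≠ qc n ∧ qb n ≠ qd n)

/-- validity of a certificate -/
def valid (L : List ℕ) : Bool :=
  L.all shape && (L.foldr (fun n x => labs n ^^^ x) 0 == 0) &&
    (L.foldr (fun n x => bet n ^^ x) false)

/-- linear functional on bit masks -/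
def lin (M : ℕ → ZMod 2) (n : ℕ) : ZMod 2 :=
  ∑ j ∈ Finset.range 729, if n.testBit j then M j else 0

lemma lin_xor (M : ℕ → ZMod 2) (x y : ℕ) : lin M (x ^^^ y) = lin M x + lin M y := by
  unfold lin
  rw [← Finset.sum_add_distrib]
  refine Finset.sum_congr rfl fun j _ => ?_
  rw [Nat.testBit_xor]
  have h2 : M j + M j = 0 := CharTwo.add_self_eq_zero _
  cases x.testBit j <;> cases y.testBit j <;> simp [h2]

lemma lin_zero (M : ℕ → ZMod 2) : lin M 0 = 0 := by
  unfold lin; simp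

lemma lin_one (M : ℕ → ZMod 2) (k : ℕ) (hk : k < 729) : lin M (1 <<< k) = M k := by
  unfold lin
  rw [Finset.sum_eq_single k]
  · simp
  · intro j _ hj
    rw [Nat.one_shiftLeft, Nat.testBit_two_pow]
    simp [Ne.symm hj]
  · intro h; exact absurd (Finset.mem_range.mpr hk) h

/-- boolean to `ZMod 2` -/
def bz (b : Bool) : ZMod 2 := if b then 1 else 0

lemma bz_xor (a b : Bool) : bz (a ^^ b) = bz a + bz b := by
  cases a <;> cases b <;> decide

lemma bz_bet (n : ℕ) : bz (bet n) = beta (qa n) (qb n) (qc n) (qd n) := by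
  unfold bet beta
  rw [bz_xor]
  simp only [bz, decide_eq_true_eq]

/-- A valid certificate is impossible. -/
theorem no_cert (m : Fin 9 → Fin 9 → Fin 9 → ZMod 2) (L : List ℕ) (hL : valid L = true)
    (H : ∀ n ∈ L, shape n = true → beta (qa n) (qb n) (qc n) (qd n) =
      m (qa n) (qb n) (qc n) + m (qa n) (qb n) (qd n) + m (qc n) (qd n) (qa n)
        + m (qc n) (qd n) (qb n)) : False := by
  unfold valid at hL
  simp only [Bool.and_eq_true, List.all_eq_true, beq_iff_eq] at hL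
  obtain ⟨⟨h1, h2⟩, h3⟩ := hL
  let M : ℕ → ZMod 2 := fun k => m (Fin.ofNat 9 (k / 81)) (Fin.ofNat 9 (k / 9)) (Fin.ofNat 9 k)
  have hM : ∀ a b c : Fin 9, M (lab a b c) = m a b c := by
    intro a b c
    have e1 : Fin.ofNat 9 (lab a b c / 81) = a := by
      apply Fin.ext; simp only [Fin.ofNat, lab]; omega
    have e2 : Fin.ofNat 9 (lab a b c / 9) = b := by
      apply Fin.ext; simp only [Fin.ofNat, lab]; omega
    have e3 : Fin.ofNat 9 (lab a b c) = c := by
      apply Fin.ext; simp only [Fin.ofNat, lab]; omega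
    simp only [M, e1, e2, e3]
  have key : ∀ L' : List ℕ, (∀ n ∈ L', n ∈ L) →
      lin M (L'.foldr (fun n x => labs n ^^^ x) 0) = bz (L'.foldr (fun n x => bet n ^^ x) false) := by
    intro L'
    induction L' with
    | nil => intro _; simp [lin_zero, bz]
    | cons n L' ih =>
      intro hn
      simp only [List.foldr_cons]
      have hnL := hn n List.mem_cons_self
      have e : lin M (labs n) = bz (bet n) := by
        rw [bz_bet, H n hnL (h1 n hnL)]
        unfold labs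
        rw [lin_xor, lin_xor, lin_xor, lin_one _ _ (lab_lt _ _ _), lin_one _ _ (lab_lt _ _ _),
          lin_one _ _ (lab_lt _ _ _), lin_one _ _ (lab_lt _ _ _), hM, hM, hM, hM]
        ring
      rw [lin_xor, bz_xor, ih (fun k hk => hn k (List.mem_cons_of_mem _ hk)), e]
  have := key L (fun _ h => h)
  rw [h2, h3, lin_zero] at this
  exact absurd this (by decide)

/-! ### A crossing-free drawing has no certificate -/

theorem no_drawing (c : Fin 9 → Fin 9 → Bool) (L : List ℕ) (hL : valid L = true)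
    (hc : ∀ n ∈ L, c (qa n) (qb n) = true ∧ c (qc n) (qd n) = true)
    (p : Fin 9 → ℂ) (hp : Function.Injective p) (γ : Fin 9 → Fin 9 → ℝ → ℂ)
    (h1 : ∀ a b, a ≠ b → c a b = true → ContinuousOn (γ a b) (Set.Icc 0 1))
    (h2 : ∀ a b, a ≠ b → c a b = true → γ a b 0 = p a)
    (h3 : ∀ a b, a ≠ b → c a b = true → γ a b 1 = p b)
    (h4 : ∀ a b, a ≠ b → c a b = true → ∀ t : ℝ, 0 < t → t < 1 → ∀ w, γ a b t ≠ p w)
    (h5 : ∀ a b a' b', a ≠ b → a' ≠ b' → c a b = true → c a' b' = true → a ≠ a' → a ≠ b' →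
      b ≠ a' → b ≠ b' → ∀ s t : ℝ, 0 < s → s < 1 → 0 < t → t < 1 → γ a b s ≠ γ a' b' t) :
    False := by
  classical
  let g : Fin 9 → Fin 9 → ℝ → ℂ := fun a b => Set.IccExtend (zero_le_one' ℝ)
    (Set.domRestrict (Set.Icc (0:ℝ) 1) (γ a b))
  have hg : ∀ a b t, ∃ t' ∈ Set.Icc (0:ℝ) 1, g a b t = γ a b t' := by
    intro a b t
    exact ⟨_, (Set.projIcc 0 1 (zero_le_one' ℝ) t).2, rfl⟩
  have hg0 : ∀ a b, g a b 0 = γ a b 0 := by
    intro a b
    have : Set.projIcc (0:ℝ) 1 (zero_le_one' ℝ) 0 = ⟨0, by simp⟩ := by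
      rw [Set.projIcc_of_mem (zero_le_one' ℝ) (by simp : (0:ℝ) ∈ Set.Icc (0:ℝ) 1)]
    simp only [g, Set.IccExtend, Function.comp, this]
    rfl
  have hg1 : ∀ a b, g a b 1 = γ a b 1 := by
    intro a b
    have : Set.projIcc (0:ℝ) 1 (zero_le_one' ℝ) 1 = ⟨1, by simp⟩ := by
      rw [Set.projIcc_of_mem (zero_le_one' ℝ) (by simp : (1:ℝ) ∈ Set.Icc (0:ℝ) 1)]
    simp only [g, Set.IccExtend, Function.comp, this]
    rfl
  obtain ⟨m, hm⟩ := exists_labels p hp (fun a b => c a b = true) g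
    (fun a b hab hE => (continuousOn_iff_continuous_domRestrict.mp (h1 a b hab.ne hE)).Icc_extend')
    (fun a b hab hE => by rw [hg0]; exact h2 a b hab.ne hE)
    (fun a b hab hE => by rw [hg1]; exact h3 a b hab.ne hE)
    (by
      intro a b w hab hE hwa hwb t ht
      obtain ⟨t', ht', he⟩ := hg a b t
      rw [he] at ht
      rcases ht'.1.eq_or_lt with h0 | h0
      · rw [← h0, h2 a b hab.ne hE] at ht
        exact hwa (hp ht).symm
      · rcases ht'.2.eq_or_lt with h6 | h6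
        · rw [h6, h3 a b hab.ne hE] at ht
          exact hwb (hp ht).symm
        · exact h4 a b hab.ne hE t' h0 h6 w ht)
  refine no_cert m L hL ?_
  intro n hn hs
  unfold shape at hs
  rw [decide_eq_true_eq] at hs
  obtain ⟨s1, s2, s3, s4, s5, s6⟩ := hs
  obtain ⟨c1, c2⟩ := hc n hn
  refine hm (qa n) (qb n) (qc n) (qd n) s1 s2 c1 c2 s3 s4 s5 s6 ?_
  intro s t hst
  obtain ⟨s', hs', hes⟩ := hg (qa n) (qb n) s
  obtain ⟨t', ht', het⟩ := hg (qc n) (qd n) t
  rw [hes, het] at hst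
  have ends : ∀ a b, a ≠ b → c a b = true → ∀ t : ℝ, t ∈ Set.Icc (0:ℝ) 1 →
      (γ a b t = p a ∧ t = 0) ∨ (γ a b t = p b ∧ t = 1) ∨ (0 < t ∧ t < 1) := by
    intro a b hab hE t ht
    rcases ht.1.eq_or_lt with h0 | h0
    · left; exact ⟨by rw [← h0, h2 a b hab hE], h0.symm⟩
    · rcases ht.2.eq_or_lt with h6 | h6
      · right; left; exact ⟨by rw [h6, h3 a b hab hE], h6⟩
      · right; right; exact ⟨h0, h6⟩
  rcases ends _ _ s1.ne c1 s' hs' with ⟨e1, -⟩ | ⟨e1, -⟩ | ⟨e1, e1'⟩ <;>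
  rcases ends _ _ s2.ne c2 t' ht' with ⟨e2, -⟩ | ⟨e2, -⟩ | ⟨e2, e2'⟩
  · rw [e1, e2] at hst; exact s3 (hp hst)
  · rw [e1, e2] at hst; exact s4 (hp hst)
  · rw [e1] at hst; exact h4 _ _ s2.ne c2 t' e2 e2' _ hst.symm
  · rw [e1, e2] at hst; exact s5 (hp hst)
  · rw [e1, e2] at hst; exact s6 (hp hst)
  · rw [e1] at hst; exact h4 _ _ s2.ne c2 t' e2 e2' _ hst.symm
  · rw [e2] at hst; exact h4 _ _ s1.ne c1 s' e1 e1' _ hst
  · rw [e2] at hst; exact h4 _ _ s1.ne c1 s' e1 e1' _ hst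
  · exact h5 _ _ _ _ s1.ne s2.ne c1 c2 s3 s4 s5 s6 s' t' e1 e1' e2 e2' hst

/-! ### The covers -/

/-- colour of a pair from the colours of the representatives -/
def colL (orb stp : List ℕ) (l : List Bool) (u v : Fin 9) : Bool :=
  (l.getD (orb.getD (u.val * 9 + v.val) 0) false) ^^
    (stp.getD (u.val * 9 + v.val) 0 % 2 == 1)

/-- some certificate is coloured `true` -/
def ok (certs : List (List ℕ)) (orb stp : List ℕ) (l : List Bool) : Bool :=
  certs.any fun L => L.all fun n =>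
    colL orb stp l (qa n) (qb n) && colL orb stp l (qc n) (qd n)

lemma valid1 : certs1.all valid = true := by decide +kernel
lemma valid2 : certs2.all valid = true := by decide +kernel

lemma cover1 : ∀ b0 b1 b2 b3 b4 b5 b6 b7 b8 b9 : Bool,
    ok certs1 orb1 stp1 [b0, b1, b2, b3, b4, b5, b6, b7, b8, b9] = true := by decide +kernel
lemma cover2 : ∀ b0 b1 b2 b3 b4 : Bool,
    ok certs2 orb2 stp2 [b0, b1, b2, b3, b4] = true := by decide +kernel

end Pool.Agent.H213R2.K9Comb
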