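import Mathlib
import Pool.Agent.Helper770.Straight

set_option autoImplicit false

namespace Pool.Agent.H213R2.K9Ex

open Pool.Agent.Helper770.Straight

/-- abscissae of the points of the two planes -/
def xs : List ℤ := [6, 8, 4, 3, 0, 5, 1, 6, 5, 7, 11, 6, 8, 0, 8, 9, 9, 3]
/-- ordinates of the points of the two planes -/
def ys : List ℤ := [2, 0, 5, 9, 7, 11, 9, 3, 10, 4, 5, 6, 0, 7, 7, 5, 8, 6]
/-- colours of the pairs -/
def cs : List ℕ := [0,0,0,1,0,1,1,1,1, 0,0,0,1,0,0,1,0,0, 0,0,0,0,0,1,0,0,1, 1,1,0,0,1,0,1,0,0,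
  0,0,0,1,0,1,0,1,1, 1,0,1,0,1,0,0,1,1, 1,1,0,1,0,0,0,1,0, 1,0,0,0,1,1,1,0,0, 1,0,1,0,1,1,0,0,0]

/-- abscissa -/
def X (i : Fin 2) (u : Fin 9) : ℤ := xs.getD (i.val * 9 + u.val) 0
/-- ordinate -/
def Y (i : Fin 2) (u : Fin 9) : ℤ := ys.getD (i.val * 9 + u.val) 0
/-- colour -/
def C (u v : Fin 9) : Fin 2 := Fin.ofNat 2 (cs.getD (u.val * 9 + v.val) 0)

/-- integral orientation -/
def oz (i : Fin 2) (a b c : Fin 9) : ℤ :=
  (X i b - X i a) * (Y i c - Y i a) - (Y i b - Y i a) * (X i c - X i a)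

/-- position -/
noncomputable def P (i : Fin 2) (u : Fin 9) : ℂ := ⟨(X i u : ℝ), (Y i u : ℝ)⟩

lemma ori_P (i : Fin 2) (a b c : Fin 9) : ori (P i a) (P i b) (P i c) = (oz i a b c : ℝ) := by
  simp only [ori, P, oz]; push_cast; ring

lemma C_symm : ∀ u v, C u v = C v u := by decide +kernel

lemma P_inj (i : Fin 2) : Function.Injective (P i) := by
  have h : ∀ i : Fin 2, ∀ u v : Fin 9, X i u = X i v → Y i u = Y i v → u = v := by decide +kernel
  intro u v huv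
  have h1 := congrArg Complex.re huv
  have h2 := congrArg Complex.im huv
  simp only [P] at h1 h2
  exact h i u v (by exact_mod_cast h1) (by exact_mod_cast h2)

lemma oz_ne : ∀ i : Fin 2, ∀ a b c : Fin 9, a ≠ b → c ≠ a → c ≠ b → oz i a b c ≠ 0 := by
  decide +kernel

lemma avoid (i : Fin 2) (u v w : Fin 9) (huv : u ≠ v) (t : ℝ) (h0 : 0 < t) (h1 : t < 1) :
    seg (P i u) (P i v) t ≠ P i w := by
  intro h
  have hne : P i u ≠ P i v := fun e => huv (P_inj i e)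
  by_cases hu : w = u
  · have : seg (P i u) (P i v) t = seg (P i u) (P i v) 0 := by rw [h, seg_zero, hu]
    exact h0.ne' (seg_inj hne this)
  by_cases hv : w = v
  · have : seg (P i u) (P i v) t = seg (P i u) (P i v) 1 := by rw [h, seg_one, hv]
    exact h1.ne (seg_inj hne this)
  have h4 : seg (P i u) (P i v) t = seg (P i w) (P i w) 0 := by rw [h, seg_zero]
  have h5 := ori_seg h4
  rw [ori_P] at h5
  have := oz_ne i u v w huv hu hv
  apply this
  have h6 : (oz i u v w : ℝ) = 0 := by linarith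
  exact_mod_cast h6

/-- The eight descriptions of the only crossing. -/
def quads : List (Fin 9 × Fin 9 × Fin 9 × Fin 9) :=
  [(3,5,6,8),(5,3,6,8),(3,5,8,6),(5,3,8,6),(6,8,3,5),(8,6,3,5),(6,8,5,3),(8,6,5,3)]

/-- separation by the line through the first two points -/
def sep (i : Fin 2) (a b c d : Fin 9) : Prop :=
  0 < oz i a b c * oz i a b d ∨ (oz i a b c = 0 ∧ oz i a b d ≠ 0) ∨
    (oz i a b c ≠ 0 ∧ oz i a b d = 0)

instance (i : Fin 2) (a b c d : Fin 9) : Decidable (sep i a b c d) := by unfold sep; infer_instance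

/-- what is known about two edges -/
def conc (i : Fin 2) (a b c d : Fin 9) : Prop :=
  sep i a b c d ∨ sep i c d a b ∨ (i = 0 ∧ (a, b, c, d) ∈ quads)

instance (i : Fin 2) (a b c d : Fin 9) : Decidable (conc i a b c d) := by
  unfold conc; infer_instance

/-- what is assumed about two edges -/
def hyp (i : Fin 2) (a b c d : Fin 9) : Prop :=
  a ≠ b ∧ c ≠ d ∧ C a b = i ∧ C c d = i ∧ ¬ (a = c ∧ b = d) ∧ ¬ (a = d ∧ b = c)

instance (i : Fin 2) (a b c d : Fin 9) : Decidable (hyp i a b c d) := by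
  unfold hyp; infer_instance

lemma table' : ∀ i : Fin 2, ∀ a b c d : Fin 9, hyp i a b c d → conc i a b c d := by
  decide +kernel

lemma table (i : Fin 2) (a b c d : Fin 9) (h1 : a ≠ b) (h2 : c ≠ d) (h3 : C a b = i)
    (h4 : C c d = i) (h5 : ¬ (a = c ∧ b = d)) (h6 : ¬ (a = d ∧ b = c)) :
    sep i a b c d ∨ sep i c d a b ∨ (i = 0 ∧ (a, b, c, d) ∈ quads) :=
  table' i a b c d ⟨h1, h2, h3, h4, h5, h6⟩

lemma sep_absurd (i : Fin 2) (a b c d : Fin 9) (h : sep i a b c d) (s t : ℝ)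
    (ht0 : 0 < t) (ht1 : t < 1) (he : seg (P i a) (P i b) s = seg (P i c) (P i d) t) : False := by
  have o1 := ori_seg he
  rw [ori_P, ori_P] at o1
  rcases h with h | ⟨h, h'⟩ | ⟨h, h'⟩
  · have hr : (0 : ℝ) < (oz i a b c : ℝ) * (oz i a b d : ℝ) := by exact_mod_cast h
    rcases pos_and_pos_or_neg_and_neg_of_mul_pos hr with ⟨p1, p2⟩ | ⟨p1, p2⟩
    · have : 0 < (1 - t) * (oz i a b c : ℝ) := mul_pos (by linarith) p1
      have : 0 < t * (oz i a b d : ℝ) := mul_pos ht0 p2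
      linarith
    · have : (1 - t) * (oz i a b c : ℝ) < 0 := mul_neg_of_pos_of_neg (by linarith) p1
      have : t * (oz i a b d : ℝ) < 0 := mul_neg_of_pos_of_neg ht0 p2
      linarith
  · rw [h] at o1
    have : t * (oz i a b d : ℝ) = 0 := by push_cast at o1; linarith
    rcases mul_eq_zero.mp this with h1 | h1
    · exact ht0.ne' h1
    · exact h' (by exact_mod_cast h1)
  · rw [h'] at o1
    have : (1 - t) * (oz i a b c : ℝ) = 0 := by push_cast at o1; linarith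
    rcases mul_eq_zero.mp this with h1 | h1
    · linarith
    · exact h (by exact_mod_cast h1)

lemma P3 : P 0 3 = ⟨3, 9⟩ := by simp [P, X, Y, xs, ys]
lemma P5 : P 0 5 = ⟨5, 11⟩ := by simp [P, X, Y, xs, ys]
lemma P6 : P 0 6 = ⟨1, 9⟩ := by simp [P, X, Y, xs, ys]
lemma P8 : P 0 8 = ⟨5, 10⟩ := by simp [P, X, Y, xs, ys]

lemma the_point (a b c d : Fin 9) (h : (a, b, c, d) ∈ quads) (z : ℂ) (s t : ℝ)
    (h1 : seg (P 0 a) (P 0 b) s = z) (h2 : seg (P 0 c) (P 0 d) t = z) :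
    z = ⟨11 / 3, 29 / 3⟩ := by
  have e1 := congrArg Complex.re h1
  have e2 := congrArg Complex.im h1
  have e3 := congrArg Complex.re h2
  have e4 := congrArg Complex.im h2
  simp only [quads, List.mem_cons, Prod.mk.injEq, List.not_mem_nil, or_false] at h
  rcases h with h | h | h | h | h | h | h | h <;>
  · obtain ⟨rfl, rfl, rfl, rfl⟩ := h
    simp only [seg, P3, P5, P6, P8] at e1 e2 e3 e4
    apply Complex.ext
    · simp only; linarith
    · simp only; linarith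

/-- The crossings of the example. -/
theorem crossings_subset (x : Fin 2 × Fin 9 × Fin 9 × Fin 9 × Fin 9 × ℂ)
    (h1 : x.2.1 ≠ x.2.2.1) (h2 : x.2.2.2.1 ≠ x.2.2.2.2.1)
    (h3 : C x.2.1 x.2.2.1 = x.1) (h4 : C x.2.2.2.1 x.2.2.2.2.1 = x.1)
    (h5 : ¬ (x.2.1 = x.2.2.2.1 ∧ x.2.2.1 = x.2.2.2.2.1))
    (h6 : ¬ (x.2.1 = x.2.2.2.2.1 ∧ x.2.2.1 = x.2.2.2.1))
    (h7 : ∃ t : ℝ, 0 < t ∧ t < 1 ∧ seg (P x.1 x.2.1) (P x.1 x.2.2.1) t = x.2.2.2.2.2)
    (h8 : ∃ t : ℝ, 0 < t ∧ t < 1 ∧ seg (P x.1 x.2.2.2.1) (P x.1 x.2.2.2.2.1) t = x.2.2.2.2.2) :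
    x ∈ (fun q : Fin 9 × Fin 9 × Fin 9 × Fin 9 =>
      ((0 : Fin 2), q.1, q.2.1, q.2.2.1, q.2.2.2, (⟨11 / 3, 29 / 3⟩ : ℂ))) ''
        ((quads.toFinset : Finset _) : Set (Fin 9 × Fin 9 × Fin 9 × Fin 9)) := by
  obtain ⟨i, a, b, c, d, z⟩ := x
  simp only at h1 h2 h3 h4 h5 h6 h7 h8
  obtain ⟨s, hs0, hs1, hs⟩ := h7
  obtain ⟨t, ht0, ht1, ht⟩ := h8
  rcases table i a b c d h1 h2 h3 h4 h5 h6 with h | h | ⟨rfl, h⟩
  · exact (sep_absurd i a b c d h s t ht0 ht1 (hs.trans ht.symm)).elim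
  · exact (sep_absurd i c d a b h t s hs0 hs1 (ht.trans hs.symm)).elim
  · refine ⟨(a, b, c, d), by simpa using h, ?_⟩
    rw [the_point a b c d h z s t hs ht]

end Pool.Agent.H213R2.K9Ex
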