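import Mathlib

set_option autoImplicit false

namespace Pool.Agent.H213R2.K9Perm

open Equiv Equiv.Perm

/-- first canonical antimorphism -/
def sig1 : Perm (Fin 9) := c[0, 1, 2, 3] * c[4, 5, 6, 7]
/-- second canonical antimorphism -/
def sig2 : Perm (Fin 9) := c[0, 1, 2, 3, 4, 5, 6, 7]

lemma cyc_of {n : ℕ} (σ : Perm (Fin 9)) (x : Fin 9) (h : σ x ≠ x)
    (hs : ∀ y, σ y ≠ y → ∃ i : Fin 8, (σ ^ i.val) x = y) (hc : σ.support.card = n) :
    σ.cycleType = {n} := by
  have : σ.IsCycle := by
    refine ⟨x, h, fun y hy => ?_⟩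
    obtain ⟨i, hi⟩ := hs y hy
    exact ⟨(i.val : ℤ), by rw [zpow_natCast]; exact hi⟩
  rw [this.cycleType, hc]

lemma type1 : sig1.cycleType = {4, 4} := by
  have hd : Disjoint (c[0, 1, 2, 3] : Perm (Fin 9)) (c[4, 5, 6, 7] : Perm (Fin 9)) := by
    intro x; revert x; decide
  unfold sig1
  rw [hd.cycleType_mul, cyc_of (n := 4) (c[0, 1, 2, 3]) 0 (by decide) (by decide) (by decide),
    cyc_of (n := 4) (c[4, 5, 6, 7]) 4 (by decide) (by decide) (by decide)]
  rfl

lemma type2 : sig2.cycleType = {8} :=
  cyc_of (n := 8) _ 0 (by decide) (by decide) (by decide)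

section anti
variable (φ : Perm (Fin 9)) (c : Fin 9 → Fin 9 → Bool)
  (hs : ∀ u v, u ≠ v → c u v = c v u) (ha : ∀ u v, u ≠ v → c (φ u) (φ v) = !(c u v))

include ha in
lemma pow_anti (k : ℕ) : ∀ u v, u ≠ v →
    c ((φ ^ k) u) ((φ ^ k) v) = (c u v ^^ decide (k % 2 = 1)) := by
  induction k with
  | zero => intro u v _; simp
  | succ k ih =>
    intro u v huv
    rw [pow_succ', Perm.mul_apply, Perm.mul_apply, ha _ _ (fun h => huv ((φ ^ k).injective h)),
      ih u v huv]
    rcases Nat.mod_two_eq_zero_or_one k with h | h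
    · have : (k + 1) % 2 = 1 := by omega
      simp [h, this]
    · have : (k + 1) % 2 = 0 := by omega
      simp [h, this]

include ha in
lemma odd_fix (k : ℕ) (hk : k % 2 = 1) (x y : Fin 9) (hx : (φ ^ k) x = x) (hy : (φ ^ k) y = y) :
    x = y := by
  by_contra hxy
  have := pow_anti φ c ha k x y hxy
  rw [hx, hy] at this
  simp [hk] at this

include hs ha in
lemma odd_swap (k : ℕ) (hk : k % 2 = 1) (x : Fin 9) (hx : (φ ^ k) ((φ ^ k) x) = x) :
    (φ ^ k) x = x := by
  by_contra hxy
  have := pow_anti φ c ha k x ((φ ^ k) x) (Ne.symm hxy)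
  rw [hx, hs _ _ hxy] at this
  simp [hk] at this

include hs ha in
lemma four_dvd (n : ℕ) (hn : n ∈ φ.cycleType) : 4 ∣ n := by
  rw [cycleType_def, Multiset.mem_map] at hn
  obtain ⟨τ, hτ, hcard⟩ := hn
  rw [← Finset.mem_def] at hτ
  obtain ⟨hcyc, hag⟩ := mem_cycleFactorsFinset_iff.mp hτ
  simp only [Function.comp] at hcard
  obtain ⟨x, hx, -⟩ := id hcyc
  have hxs : x ∈ τ.support := mem_support.mpr hx
  have hpow : ∀ j : ℕ, ∀ y ∈ τ.support, (τ ^ j) y = (φ ^ j) y := by
    intro j
    induction j with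
    | zero => intro y _; simp
    | succ j ih =>
      intro y hy
      rw [pow_succ, pow_succ, Perm.mul_apply, Perm.mul_apply, ← hag y hy]
      exact ih _ (apply_mem_support.mpr hy)
  have hord : orderOf τ = n := by rw [hcyc.orderOf, hcard]
  have hn : ∀ y ∈ τ.support, (φ ^ n) y = y := by
    intro y hy
    rw [← hpow n y hy, ← hord, pow_orderOf_eq_one]; rfl
  have hne : ∀ j, 0 < j → j < n → (φ ^ j) x ≠ x := by
    intro j hj0 hjn h
    rw [← hpow j x hxs] at h
    have : τ ^ j = 1 := by
      have := hcyc.pow_eq_one_iff (n := j)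
      exact this.mpr ⟨x, hx, h⟩
    have := orderOf_le_of_pow_eq_one hj0 this
    omega
  have hn2 : 2 ≤ n := by rw [← hcard]; exact hcyc.two_le_card_support
  rcases Nat.even_or_odd' n with ⟨k, hk | hk⟩
  · rcases Nat.mod_two_eq_zero_or_one k with h | h
    · omega
    · exfalso
      refine hne k (by omega) (by omega) (odd_swap φ c hs ha k h x ?_)
      rw [← Perm.mul_apply, ← pow_add, show k + k = n by omega]
      exact hn x hxs
  · exfalso
    refine hx ?_
    have := odd_fix φ c ha n (by omega) x (τ x) (hn x hxs) (hn _ (apply_mem_support.mpr hxs))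
    exact this.symm

include hs ha in
/-- An antimorphism is conjugate to one of the two canonical ones. -/
theorem canon : ∃ π : Perm (Fin 9),
    (∀ x, φ (π x) = π (sig1 x)) ∨ (∀ x, φ (π x) = π (sig2 x)) := by
  have h4 := four_dvd φ c hs ha
  have hsum := φ.sum_cycleType
  have hcard : 8 ≤ φ.support.card := by
    have h1 : φ.supportᶜ.card ≤ 1 := by
      rw [Finset.card_le_one]
      intro a ha' b hb'
      rw [Finset.mem_compl, notMem_support] at ha' hb'
      exact odd_fix φ c ha 1 rfl a b (by simpa using ha') (by simpa using hb')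
    rw [Finset.card_compl, Fintype.card_fin] at h1
    omega
  have hcard2 : φ.support.card ≤ 9 := by
    have := Finset.card_le_univ φ.support
    simpa using this
  have hdvd : 4 ∣ φ.cycleType.sum := Multiset.dvd_sum h4
  have h8 : φ.cycleType.sum = 8 := by omega
  have hge : ∀ n ∈ φ.cycleType, 4 ≤ n := by
    intro n hn
    have := h4 n hn
    have := two_le_of_mem_cycleType hn
    omega
  have hc2 : φ.cycleType.card ≤ 2 := by
    have := Multiset.card_nsmul_le_sum hge
    rw [h8] at this
    simp at this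
    omega
  have htype : φ.cycleType = {4, 4} ∨ φ.cycleType = {8} := by
    rcases Nat.lt_or_ge φ.cycleType.card 1 with h0 | h0
    · exfalso
      have : φ.cycleType = 0 := Multiset.card_eq_zero.mp (by omega)
      rw [this] at h8; simp at h8
    · rcases h0.eq_or_lt with h1 | h1
      · obtain ⟨a, ha1⟩ := Multiset.card_eq_one.mp h1.symm
        rw [ha1] at h8
        right; rw [ha1]; simp at h8; rw [h8]
      · have h2 : φ.cycleType.card = 2 := by omega
        obtain ⟨a, b, hab⟩ := Multiset.card_eq_two.mp h2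
        left
        have hA := hge a (by rw [hab]; simp)
        have hB := hge b (by rw [hab]; simp)
        rw [hab] at h8
        simp at h8
        have : a = 4 := by omega
        have : b = 4 := by omega
        subst_vars
        exact hab
  rcases htype with h | h
  · have hconj : IsConj sig1 φ := isConj_iff_cycleType_eq.mpr (by rw [type1, h])
    obtain ⟨π, hπ⟩ := isConj_iff.mp hconj
    refine ⟨π, Or.inl fun x => ?_⟩
    rw [← hπ]; simp
  · have hconj : IsConj sig2 φ := isConj_iff_cycleType_eq.mpr (by rw [type2, h])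
    obtain ⟨π, hπ⟩ := isConj_iff.mp hconj
    refine ⟨π, Or.inr fun x => ?_⟩
    rw [← hπ]; simp

end anti

end Pool.Agent.H213R2.K9Perm
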