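import Mathlib
import Pool.Agent.H213R2.K9Comb
import Pool.Agent.H213R2.K9Perm

set_option autoImplicit false

namespace Pool.Agent.H213R2.K9Sc

open Pool.Agent.H213R2.K9Data Pool.Agent.H213R2.K9Comb Pool.Agent.H213R2.K9Perm

/-- first vertex of a coded pair -/
def pa (n : ℕ) : Fin 9 := Fin.ofNat 9 (n / 9)
/-- second vertex of a coded pair -/
def pb (n : ℕ) : Fin 9 := Fin.ofNat 9 n

/-- every pair is reached from its representative -/
def reach (orb stp rep : List ℕ) (σ : Equiv.Perm (Fin 9)) (u v : Fin 9) : Prop :=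
  pa (rep.getD (orb.getD (u.val * 9 + v.val) 0) 0) ≠ pb (rep.getD (orb.getD (u.val * 9 + v.val) 0) 0) ∧
  (((σ ^ (stp.getD (u.val * 9 + v.val) 0)) (pa (rep.getD (orb.getD (u.val * 9 + v.val) 0) 0)) = u ∧
    (σ ^ (stp.getD (u.val * 9 + v.val) 0)) (pb (rep.getD (orb.getD (u.val * 9 + v.val) 0) 0)) = v) ∨
  ((σ ^ (stp.getD (u.val * 9 + v.val) 0)) (pa (rep.getD (orb.getD (u.val * 9 + v.val) 0) 0)) = v ∧
    (σ ^ (stp.getD (u.val * 9 + v.val) 0)) (pb (rep.getD (orb.getD (u.val * 9 + v.val) 0) 0)) = u))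

instance (orb stp rep : List ℕ) (σ : Equiv.Perm (Fin 9)) (u v : Fin 9) :
    Decidable (reach orb stp rep σ u v) := by unfold reach; infer_instance

lemma reach1 : ∀ u v : Fin 9, u ≠ v → reach orb1 stp1 rep1 sig1 u v := by decide +kernel
lemma reach2 : ∀ u v : Fin 9, u ≠ v → reach orb2 stp2 rep2 sig2 u v := by decide +kernel

lemma orb1_lt : ∀ u v : Fin 9, orb1.getD (u.val * 9 + v.val) 0 < 10 := by decide +kernel
lemma orb2_lt : ∀ u v : Fin 9, orb2.getD (u.val * 9 + v.val) 0 < 5 := by decide +kernel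

/-- The colouring is determined by the colours of the representatives. -/
lemma col_eq (orb stp rep : List ℕ) (σ : Equiv.Perm (Fin 9))
    (hr : ∀ u v : Fin 9, u ≠ v → reach orb stp rep σ u v)
    (c : Fin 9 → Fin 9 → Bool) (hs : ∀ u v, u ≠ v → c u v = c v u)
    (ha : ∀ u v, u ≠ v → c (σ u) (σ v) = !(c u v)) (l : List Bool)
    (hl : ∀ u v : Fin 9, l.getD (orb.getD (u.val * 9 + v.val) 0) false =
      c (pa (rep.getD (orb.getD (u.val * 9 + v.val) 0) 0))
        (pb (rep.getD (orb.getD (u.val * 9 + v.val) 0) 0)))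
    (u v : Fin 9) (huv : u ≠ v) : c u v = colL orb stp l u v := by
  unfold colL
  rw [hl u v]
  obtain ⟨hne, h⟩ := hr u v huv
  have hp := pow_anti σ c ha (stp.getD (u.val * 9 + v.val) 0) _ _ hne
  have e : decide (stp.getD (u.val * 9 + v.val) 0 % 2 = 1) =
    (stp.getD (u.val * 9 + v.val) 0 % 2 == 1) := rfl
  rw [← e, ← hp]
  rcases h with ⟨h1, h2⟩ | ⟨h1, h2⟩
  · rw [h1, h2]
  · rw [h1, h2]; exact hs _ _ huv

/-- Both canonical cases. -/
theorem no_sc_canon (certs : List (List ℕ)) (orb stp : List ℕ) (hv : certs.all valid = true)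
    (c : Fin 9 → Fin 9 → Bool) (l : List Bool) (hok : ok certs orb stp l = true)
    (hcol : ∀ u v : Fin 9, u ≠ v → c u v = colL orb stp l u v)
    (p : Fin 9 → ℂ) (hp : Function.Injective p) (γ : Fin 9 → Fin 9 → ℝ → ℂ)
    (h1 : ∀ a b, a ≠ b → c a b = true → ContinuousOn (γ a b) (Set.Icc 0 1))
    (h2 : ∀ a b, a ≠ b → c a b = true → γ a b 0 = p a)
    (h3 : ∀ a b, a ≠ b → c a b = true → γ a b 1 = p b)
    (h4 : ∀ a b, a ≠ b → c a b = true → ∀ t : ℝ, 0 < t → t < 1 → ∀ w, γ a b t ≠ p w)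
    (h5 : ∀ a b a' b', a ≠ b → a' ≠ b' → c a b = true → c a' b' = true → a ≠ a' → a ≠ b' →
      b ≠ a' → b ≠ b' → ∀ s t : ℝ, 0 < s → s < 1 → 0 < t → t < 1 → γ a b s ≠ γ a' b' t) :
    False := by
  unfold ok at hok
  rw [List.any_eq_true] at hok
  obtain ⟨L, hL, hLc⟩ := hok
  rw [List.all_eq_true] at hv hLc
  have hLv := hv L hL
  have hsh : ∀ n ∈ L, shape n = true := by
    have := hLv
    unfold valid at this
    simp only [Bool.and_eq_true, List.all_eq_true] at this
    exact this.1.1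
  refine no_drawing c L hLv ?_ p hp γ h1 h2 h3 h4 h5
  intro n hn
  have h := hLc n hn
  rw [Bool.and_eq_true] at h
  have s := hsh n hn
  unfold shape at s
  rw [decide_eq_true_eq] at s
  rw [hcol _ _ s.1.ne, hcol _ _ s.2.1.ne]
  exact h

/-- No colour class of an antimorphic colouring of the pairs of nine points has a drawing
without crossings. -/
theorem no_sc (φ : Equiv.Perm (Fin 9)) (c : Fin 9 → Fin 9 → Bool)
    (hs : ∀ u v, u ≠ v → c u v = c v u) (ha : ∀ u v, u ≠ v → c (φ u) (φ v) = !(c u v))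
    (p : Fin 9 → ℂ) (hp : Function.Injective p) (γ : Fin 9 → Fin 9 → ℝ → ℂ)
    (h1 : ∀ a b, a ≠ b → c a b = true → ContinuousOn (γ a b) (Set.Icc 0 1))
    (h2 : ∀ a b, a ≠ b → c a b = true → γ a b 0 = p a)
    (h3 : ∀ a b, a ≠ b → c a b = true → γ a b 1 = p b)
    (h4 : ∀ a b, a ≠ b → c a b = true → ∀ t : ℝ, 0 < t → t < 1 → ∀ w, γ a b t ≠ p w)
    (h5 : ∀ a b a' b', a ≠ b → a' ≠ b' → c a b = true → c a' b' = true → a ≠ a' → a ≠ b' →
      b ≠ a' → b ≠ b' → ∀ s t : ℝ, 0 < s → s < 1 → 0 < t → t < 1 → γ a b s ≠ γ a' b' t) :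
    False := by
  obtain ⟨π, hπ⟩ := canon φ c hs ha
  -- transported data
  have hs' : ∀ u v, u ≠ v → c (π u) (π v) = c (π v) (π u) := fun u v h =>
    hs _ _ (fun e => h (π.injective e))
  have main : ∀ (certs : List (List ℕ)) (orb stp : List ℕ) (_ : certs.all valid = true)
      (l : List Bool) (_ : ok certs orb stp l = true)
      (_ : ∀ u v : Fin 9, u ≠ v → c (π u) (π v) = colL orb stp l u v), False := by
    intro certs orb stp hv l hok hcol
    refine no_sc_canon certs orb stp hv (fun u v => c (π u) (π v)) l hok hcol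
      (fun u => p (π u)) (hp.comp π.injective) (fun u v => γ (π u) (π v)) ?_ ?_ ?_ ?_ ?_
    · exact fun a b hab hc => h1 _ _ (fun e => hab (π.injective e)) hc
    · exact fun a b hab hc => h2 _ _ (fun e => hab (π.injective e)) hc
    · exact fun a b hab hc => h3 _ _ (fun e => hab (π.injective e)) hc
    · exact fun a b hab hc t ht0 ht1 w => h4 _ _ (fun e => hab (π.injective e)) hc t ht0 ht1 _
    · exact fun a b a' b' hab hab' hc hc' n1 n2 n3 n4 => h5 _ _ _ _
        (fun e => hab (π.injective e)) (fun e => hab' (π.injective e)) hc hc'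
        (fun e => n1 (π.injective e)) (fun e => n2 (π.injective e))
        (fun e => n3 (π.injective e)) (fun e => n4 (π.injective e))
  rcases hπ with hπ | hπ
  · have ha' : ∀ u v, u ≠ v → c (π (sig1 u)) (π (sig1 v)) = !(c (π u) (π v)) := by
      intro u v huv
      rw [← hπ, ← hπ]
      exact ha _ _ (fun e => huv (π.injective e))
    let r : ℕ → Bool := fun o => c (π (pa (rep1.getD o 0))) (π (pb (rep1.getD o 0)))
    refine main certs1 orb1 stp1 valid1 [r 0, r 1, r 2, r 3, r 4, r 5, r 6, r 7, r 8, r 9]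
      (cover1 _ _ _ _ _ _ _ _ _ _) ?_
    refine col_eq orb1 stp1 rep1 sig1 reach1 (fun u v => c (π u) (π v)) hs' ha' _ ?_
    intro u v
    have hlt := orb1_lt u v
    have : ∀ o < 10, ([r 0, r 1, r 2, r 3, r 4, r 5, r 6, r 7, r 8, r 9] : List Bool).getD o false = r o := by
      intro o ho
      interval_cases o <;> rfl
    rw [this _ hlt]
  · have ha' : ∀ u v, u ≠ v → c (π (sig2 u)) (π (sig2 v)) = !(c (π u) (π v)) := by
      intro u v huv
      rw [← hπ, ← hπ]
      exact ha _ _ (fun e => huv (π.injective e))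
    let r : ℕ → Bool := fun o => c (π (pa (rep2.getD o 0))) (π (pb (rep2.getD o 0)))
    refine main certs2 orb2 stp2 valid2 [r 0, r 1, r 2, r 3, r 4]
      (cover2 _ _ _ _ _) ?_
    refine col_eq orb2 stp2 rep2 sig2 reach2 (fun u v => c (π u) (π v)) hs' ha' _ ?_
    intro u v
    have hlt := orb2_lt u v
    have : ∀ o < 5, ([r 0, r 1, r 2, r 3, r 4] : List Bool).getD o false = r o := by
      intro o ho
      interval_cases o <;> rfl
    rw [this _ hlt]

end Pool.Agent.H213R2.K9Sc
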