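import Pool.Agent.H961R2.Lev.Stubs

/-!
Task P5: maximum principle.
-/

set_option autoImplicit false

open MeasureTheory Set Filter Topology InnerProductSpace Complex Metric

namespace H961Lev

theorem T_P5 : S_P5 := by
  intro K Ω w hK hΩ hΩK hw hharm hbd z0 hz0
  by_contra hcon
  push Not at hcon
  obtain ⟨ρ, hρ⟩ := hK.isBounded.exists_norm_le
  set r0 : ℝ := max ρ 1 with hr0
  have hr1 : 1 ≤ r0 := le_max_right _ _
  have hr0' : 0 < r0 := by linarith
  set ε : ℝ := w z0 / (2 * r0 ^ 2) with hε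
  have hε0 : 0 < ε := by positivity
  have hnorm : ∀ z ∈ K, ε * ‖z‖ ^ 2 ≤ w z0 / 2 := by
    intro z hz
    have h1 : ‖z‖ ≤ r0 := (hρ z hz).trans (le_max_left _ _)
    have h2 : ‖z‖ ^ 2 ≤ r0 ^ 2 := by gcongr
    calc ε * ‖z‖ ^ 2 ≤ ε * r0 ^ 2 := by gcongr
      _ = w z0 / 2 := by rw [hε]; field_simp
  set v : ℂ → ℝ := fun z => w z + ε * ‖z‖ ^ 2 with hv
  have hvc : ContinuousOn v K := hw.add (by fun_prop)
  obtain ⟨z1, hz1, hmax⟩ := hK.exists_isMaxOn ⟨z0, hz0⟩ hvc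
  have hmax' : ∀ z ∈ K, v z ≤ v z1 := fun z hz => hmax hz
  have hv0 : w z0 ≤ v z1 := by
    have h1 := hmax' z0 hz0
    have h2 : w z0 ≤ v z0 := by
      simp only [hv]
      have : 0 ≤ ε * ‖z0‖ ^ 2 := by positivity
      linarith
    linarith
  have hw1 : 0 < w z1 := by
    have h1 := hnorm z1 hz1
    have h2 : v z1 = w z1 + ε * ‖z1‖ ^ 2 := rfl
    linarith
  have hz1Ω : z1 ∈ Ω := by
    by_contra hn
    have := hbd z1 ⟨hz1, hn⟩
    linarith
  have hH : HarmonicAt w z1 := hharm z1 hz1Ω hw1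
  have hopen : Ω ∩ {z | HarmonicAt w z} ∈ 𝓝 z1 :=
    inter_mem (hΩ.mem_nhds hz1Ω) hH.eventually
  obtain ⟨r, hr, hrs⟩ := nhds_basis_closedBall.mem_iff.1 hopen
  -- the harmonic function which agrees with `v` on the circle
  set g : ℂ → ℝ := fun z =>
    w z + ε * (r ^ 2 + ‖z1‖ ^ 2 + 2 * ((z - z1) * (starRingEnd ℂ) z1).re) with hg
  have hgH : HarmonicOnNhd g (closedBall z1 |r|) := by
    intro z hz
    rw [abs_of_pos hr] at hz
    have h1 : HarmonicAt w z := (hrs hz).2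
    have h2 : HarmonicAt (fun z : ℂ =>
        ((ε : ℂ) * ((r : ℂ) ^ 2 + (‖z1‖ : ℂ) ^ 2 + 2 * ((z - z1) * (starRingEnd ℂ) z1))).re) z := by
      apply AnalyticAt.harmonicAt_re
      fun_prop
    have h3 := h1.add h2
    refine (harmonicAt_congr_nhds (Eventually.of_forall fun y => ?_)).1 h3
    simp only [Pi.add_apply, hg]
    congr 1
    have e : ((ε : ℂ) * ((r : ℂ) ^ 2 + (‖z1‖ : ℂ) ^ 2 + 2 * ((y - z1) * (starRingEnd ℂ) z1))) =
        ((ε : ℝ) : ℂ) * (((r ^ 2 + ‖z1‖ ^ 2 : ℝ) : ℂ) + ((2 : ℝ) : ℂ) *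
          ((y - z1) * (starRingEnd ℂ) z1)) := by
      push_cast; ring
    rw [e, re_ofReal_mul, add_re, ofReal_re, re_ofReal_mul]
  have hgc := hgH.circleAverage_eq
  have hgi : CircleIntegrable g z1 r :=
    (hgH.continuousOn.mono sphere_subset_closedBall).circleIntegrable'
  have hle : ∀ z ∈ sphere z1 |r|, g z ≤ v z1 := by
    intro z hz
    rw [abs_of_pos hr] at hz
    have hzK : z ∈ K := hΩK (hrs (sphere_subset_closedBall hz)).1
    have hn : ‖z - z1‖ = r := by simpa [mem_sphere_iff_norm] using hz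
    have e : ‖z‖ ^ 2 = r ^ 2 + ‖z1‖ ^ 2 + 2 * ((z - z1) * (starRingEnd ℂ) z1).re := by
      have h1 : z = (z - z1) + z1 := by ring
      have h2 : ‖z‖ ^ 2 = ‖(z - z1) + z1‖ ^ 2 := by rw [← h1]
      rw [h2, ← Complex.normSq_eq_norm_sq, Complex.normSq_add, Complex.normSq_eq_norm_sq,
        Complex.normSq_eq_norm_sq, hn]
    have : g z = v z := by
      simp only [hg, hv]
      rw [e]
    rw [this]
    exact hmax' z hzK
  have hav := Real.circleAverage_mono_on_of_le_circle hgi hle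
  rw [hgc] at hav
  have hg1 : g z1 = w z1 + ε * (r ^ 2 + ‖z1‖ ^ 2) := by
    simp [hg]
  have hv1 : v z1 = w z1 + ε * ‖z1‖ ^ 2 := rfl
  have : 0 < ε * r ^ 2 := by positivity
  rw [hg1, hv1] at hav
  nlinarith

end H961Lev
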